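import Pool.Agent.Helper28.UC.Defs

/-!
# UC-EX: expected values

`exp_ST`: `c = exp(-2(D+1)) / (2^D D!)`, `n0 = 2 D + 2`.  `∑_f |ST D f| = ∑_v #{f : v ∈ ST D f}`.  For fixed `v` and a `D`-element set `S` of vertices different from `v`, the functions with `f x = v` for `x ∈ S` and `f x ∉ S ∪ {v}` for `x ∉ S`
have `pre f v = S` (note `f v ∉ S ∪ {v}`) and `pre f x = ∅` for `x ∈ S`; their number is `(n - D - 1)^(n - D)` (`Fintype.card_pi`/`piFinset`), and they are different for different `S`.  So the sum is at least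
`n C(n-1, D) (n-D-1)^(n-D)`.  `C(n-1, D) ≥ (n - D)^D/D! ≥ (n/2)^D/D!` (`Nat.pow_le_choose`), `(n-D-1)^(n-D) ≥ n^(n-D) (1 - (D+1)/n)^n ≥ n^(n-D) exp(-2(D+1))` (`1 - x ≥ exp(-2x)` for `0 ≤ x ≤ 1/2`).
`exp_TL`: `(Λ+1) TL Λ f ≤ ∑_v (k_v + 1)²` with `k_v = |pre f v|`; `∑_v k_v = n`, `∑_v k_v² = #{(x,y) : f x = f y}`, whose sum over `f` is `n n^n + n (n-1) n^(n-1) ≤ 2 n n^n`.  So `(Λ+1) ∑_f TL Λ f ≤ 5 n n^n`.
-/

set_option autoImplicit false

namespace Pool.Agent.UC

open Finset

/-- the functions with `pre f v = S` and no preimages of the elements of `S` -/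
def fam44 {n : ℕ} (v : Fin n) (S : Finset (Fin n)) : Finset (Fin n → Fin n) :=
  Fintype.piFinset (fun x => if x ∈ S then {v} else (insert v S)ᶜ)

theorem mem_fam44 {n : ℕ} (v : Fin n) (S : Finset (Fin n)) (hv : v ∉ S) (f : Fin n → Fin n)
    (hf : f ∈ fam44 v S) : pre f v = S ∧ ∀ x ∈ S, pre f x = ∅ := by
  unfold fam44 at hf
  rw [Fintype.mem_piFinset] at hf
  have h1 : ∀ x, x ∈ S → f x = v := by
    intro x hx
    have := hf x
    rw [if_pos hx] at this
    simpa using this
  have h2 : ∀ x, x ∉ S → f x ≠ v ∧ f x ∉ S := by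
    intro x hx
    have := hf x
    rw [if_neg hx] at this
    simpa using this
  constructor
  · ext x
    unfold pre
    rw [mem_filter]
    constructor
    · rintro ⟨_, hx⟩
      by_contra hxs
      exact (h2 x hxs).1 hx
    · intro hx
      exact ⟨mem_univ _, h1 x hx⟩
  · intro x hx
    unfold pre
    rw [filter_eq_empty_iff]
    intro y _ hy
    by_cases hys : y ∈ S
    · rw [h1 y hys] at hy
      rw [← hy] at hx
      exact hv hx
    · rw [← hy] at hx
      exact (h2 y hys).2 hx

theorem card_fam44 {n : ℕ} (v : Fin n) (S : Finset (Fin n)) (hv : v ∉ S) (D : ℕ) (hD : S.card = D) :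
    (fam44 v S).card = (n - D - 1) ^ (n - D) := by
  unfold fam44
  rw [Fintype.card_piFinset]
  have : ∀ x : Fin n, (if x ∈ S then ({v} : Finset (Fin n)) else (insert v S)ᶜ).card
      = if x ∈ S then 1 else (n - D - 1) := by
    intro x
    split_ifs
    · simp
    · rw [card_compl, card_insert_of_notMem hv, Fintype.card_fin, hD]
      omega
  rw [prod_congr rfl (fun x _ => this x), prod_ite]
  simp only [prod_const_one, one_mul, prod_const]
  congr 1
  have h3 : (univ.filter (fun x => x ∉ S)) = Sᶜ := by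
    ext x; simp
  rw [h3, card_compl, Fintype.card_fin, hD]

theorem count44 {n : ℕ} (v : Fin n) (D : ℕ) :
    (n - 1).choose D * (n - D - 1) ^ (n - D) ≤
      (univ.filter (fun f : Fin n → Fin n => v ∈ ST D f)).card := by
  have hsub : (powersetCard D (univ.erase v)).biUnion (fun S => fam44 v S) ⊆
      univ.filter (fun f : Fin n → Fin n => v ∈ ST D f) := by
    intro f hf
    rw [mem_biUnion] at hf
    obtain ⟨S, hS, hfS⟩ := hf
    rw [mem_powersetCard] at hS
    have hv : v ∉ S := fun h => (notMem_erase v univ) (hS.1 h)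
    obtain ⟨h1, h2⟩ := mem_fam44 v S hv f hfS
    rw [mem_filter]
    refine ⟨mem_univ _, ?_⟩
    unfold ST
    rw [mem_filter, h1]
    exact ⟨mem_univ _, hS.2, h2⟩
  refine le_trans ?_ (card_le_card hsub)
  rw [card_biUnion]
  · have : ∀ S ∈ powersetCard D (univ.erase v), (fam44 v S).card = (n - D - 1) ^ (n - D) := by
      intro S hS
      rw [mem_powersetCard] at hS
      have hv : v ∉ S := fun h => (notMem_erase v univ) (hS.1 h)
      exact card_fam44 v S hv D hS.2
    rw [sum_congr rfl this, sum_const, card_powersetCard, card_erase_of_mem (mem_univ v), card_univ,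
      Fintype.card_fin, smul_eq_mul]
  · intro S hS T hT hST
    refine disjoint_left.mpr ?_
    intro f hf hf'
    rw [mem_coe, mem_powersetCard] at hS hT
    have hv : v ∉ S := fun h => (notMem_erase v univ) (hS.1 h)
    have hv' : v ∉ T := fun h => (notMem_erase v univ) (hT.1 h)
    exact hST ((mem_fam44 v S hv f hf).1.symm.trans (mem_fam44 v T hv' f hf').1)

theorem exp_ST (D : ℕ) (hD : 1 ≤ D) : ∃ c : ℝ, 0 < c ∧ ∃ n0 : ℕ, ∀ n : ℕ, n0 ≤ n →
    c * n * (n : ℝ) ^ n ≤ ∑ f : Fin n → Fin n, ((ST D f).card : ℝ) := by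
  refine ⟨Real.exp (-(2 * ((D : ℝ) + 1))) / (2 ^ D * (D.factorial : ℝ)), by positivity, 2 * D + 2, ?_⟩
  intro n hn
  have hsum : ∑ f : Fin n → Fin n, ((ST D f).card : ℝ)
      = ∑ v : Fin n, ((univ.filter (fun f : Fin n → Fin n => v ∈ ST D f)).card : ℝ) := by
    have h1 : ∀ f : Fin n → Fin n, ((ST D f).card : ℝ) = ∑ v : Fin n, if v ∈ ST D f then (1 : ℝ) else 0 := by
      intro f
      rw [← sum_filter, sum_const, nsmul_eq_mul, mul_one]
      congr 2
      ext x
      simp
    have h2 : ∀ v : Fin n, ((univ.filter (fun f : Fin n → Fin n => v ∈ ST D f)).card : ℝ)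
        = ∑ f : Fin n → Fin n, if v ∈ ST D f then (1 : ℝ) else 0 := by
      intro v
      rw [← sum_filter, sum_const, nsmul_eq_mul, mul_one]
    rw [sum_congr rfl (fun f _ => h1 f), sum_congr rfl (fun v _ => h2 v), sum_comm]
  rw [hsum]
  have hn0 : (0 : ℝ) < n := by
    have : 0 < n := by omega
    exact_mod_cast this
  have hlow : ∀ v : Fin n, (((n - 1).choose D : ℕ) : ℝ) * (((n - D - 1 : ℕ) : ℝ)) ^ (n - D) ≤
      ((univ.filter (fun f : Fin n → Fin n => v ∈ ST D f)).card : ℝ) := by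
    intro v
    have := count44 v D
    exact_mod_cast this
  have hch : ((n : ℝ) / 2) ^ D / (D.factorial : ℝ) ≤ (((n - 1).choose D : ℕ) : ℝ) := by
    have h := Nat.pow_le_choose (α := ℝ) D (n - 1)
    have h4 : n - 1 + 1 - D = n - D := by omega
    rw [h4] at h
    refine le_trans ?_ h
    have h5 : (n : ℝ) / 2 ≤ ((n - D : ℕ) : ℝ) := by
      rw [Nat.cast_sub (by omega)]
      have : (2 * D + 2 : ℝ) ≤ n := by exact_mod_cast hn
      linarith
    gcongr
  have hpow : (n : ℝ) ^ (n - D) * Real.exp (-(2 * ((D : ℝ) + 1))) ≤ (((n - D - 1 : ℕ) : ℝ)) ^ (n - D) := by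
    have hx : ((n - D - 1 : ℕ) : ℝ) = (n : ℝ) * (1 - ((D : ℝ) + 1) / n) := by
      rw [Nat.sub_sub, Nat.cast_sub (by omega)]
      push_cast
      field_simp
    set x : ℝ := ((D : ℝ) + 1) / n with hxdef
    have hx0 : 0 ≤ x := by positivity
    have hx1 : x ≤ 1 / 2 := by
      rw [hxdef, div_le_iff₀ hn0]
      have : (2 * D + 2 : ℝ) ≤ n := by exact_mod_cast hn
      linarith
    have hexp : Real.exp (-(2 * x)) ≤ 1 - x := by
      have h6 : 1 + 2 * x ≤ Real.exp (2 * x) := by
        have := Real.add_one_le_exp (2 * x)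
        linarith
      have h7 : 1 ≤ (1 - x) * Real.exp (2 * x) := by
        have h8 : (1 - x) * (1 + 2 * x) ≤ (1 - x) * Real.exp (2 * x) :=
          mul_le_mul_of_nonneg_left h6 (by linarith)
        have h9 : 1 ≤ (1 - x) * (1 + 2 * x) := by
          have : 0 ≤ x * (1 - 2 * x) := mul_nonneg hx0 (by linarith)
          nlinarith
        linarith
      rw [Real.exp_neg]
      rw [inv_le_comm₀ (Real.exp_pos _) (by linarith)]
      rw [inv_le_iff_one_le_mul₀ (by linarith)]
      linarith [mul_comm (1 - x) (Real.exp (2 * x))]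
    rw [hx, mul_pow]
    refine mul_le_mul_of_nonneg_left ?_ (by positivity)
    have h10 : (Real.exp (-(2 * x))) ^ (n - D) ≤ (1 - x) ^ (n - D) :=
      pow_le_pow_left₀ (Real.exp_pos _).le hexp _
    refine le_trans ?_ h10
    rw [← Real.exp_nat_mul]
    apply Real.exp_le_exp.mpr
    have h11 : ((n - D : ℕ) : ℝ) ≤ n := by exact_mod_cast Nat.sub_le _ _
    have h12 : (n : ℝ) * x = (D : ℝ) + 1 := by
      rw [hxdef]; field_simp
    have h13 : ((n - D : ℕ) : ℝ) * x ≤ n * x := mul_le_mul_of_nonneg_right h11 hx0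
    linarith
  have hterm : Real.exp (-(2 * ((D : ℝ) + 1))) / (2 ^ D * (D.factorial : ℝ)) * (n : ℝ) ^ n ≤
      (((n - 1).choose D : ℕ) : ℝ) * (((n - D - 1 : ℕ) : ℝ)) ^ (n - D) := by
    have h14 : Real.exp (-(2 * ((D : ℝ) + 1))) / (2 ^ D * (D.factorial : ℝ)) * (n : ℝ) ^ n
        = ((n : ℝ) / 2) ^ D / (D.factorial : ℝ) * ((n : ℝ) ^ (n - D) * Real.exp (-(2 * ((D : ℝ) + 1)))) := by
      have h15 : (n : ℝ) ^ n = (n : ℝ) ^ D * (n : ℝ) ^ (n - D) := by
        rw [← pow_add]; congr 1; omega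
      rw [h15, div_pow]
      field_simp
    rw [h14]
    exact mul_le_mul hch hpow (by positivity) (by positivity)
  calc Real.exp (-(2 * ((D : ℝ) + 1))) / (2 ^ D * (D.factorial : ℝ)) * n * (n : ℝ) ^ n
      = ∑ _v : Fin n, (Real.exp (-(2 * ((D : ℝ) + 1))) / (2 ^ D * (D.factorial : ℝ)) * (n : ℝ) ^ n) := by
        rw [sum_const, card_univ, Fintype.card_fin, nsmul_eq_mul]
        ring
    _ ≤ ∑ v : Fin n, ((univ.filter (fun f : Fin n → Fin n => v ∈ ST D f)).card : ℝ) :=
        sum_le_sum (fun v _ => le_trans hterm (hlow v))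

theorem pair44 {n : ℕ} (x y : Fin n) (hxy : x ≠ y) :
    (univ.filter (fun f : Fin n → Fin n => f x = f y)).card * n ≤ n ^ n := by
  have h : ((univ.filter (fun f : Fin n → Fin n => f x = f y)) ×ˢ (univ : Finset (Fin n))).card
      ≤ (univ : Finset (Fin n → Fin n)).card := by
    apply card_le_card_of_injOn (fun p => Function.update p.1 x p.2)
    · intro p _
      exact mem_coe.mpr (mem_univ _)
    · rintro ⟨f, a⟩ hf ⟨g, b⟩ hg h
      rw [mem_coe, mem_product, mem_filter] at hf hg
      simp only at h hf hg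
      have hy : f y = g y := by
        have := congrFun h y
        rwa [Function.update_of_ne hxy.symm, Function.update_of_ne hxy.symm] at this
      have hab : a = b := by
        have := congrFun h x
        rwa [Function.update_self, Function.update_self] at this
      have hfg : f = g := by
        funext z
        by_cases hz : z = x
        · rw [hz, hf.1.2, hg.1.2, hy]
        · have := congrFun h z
          rwa [Function.update_of_ne hz, Function.update_of_ne hz] at this
      rw [hfg, hab]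
  rw [card_product, card_univ, card_univ, Fintype.card_fin, Fintype.card_fun, Fintype.card_fin] at h
  exact h

theorem sum_pre44 {n : ℕ} (f : Fin n → Fin n) : ∑ v : Fin n, (pre f v).card = n := by
  unfold pre
  rw [← card_eq_sum_card_fiberwise (f := f) (s := univ) (t := univ) (fun x _ => mem_coe.mpr (mem_univ _))]
  simp

theorem sum_sq44 {n : ℕ} (f : Fin n → Fin n) : ∑ v : Fin n, (pre f v).card ^ 2
    = ∑ x : Fin n, ∑ y : Fin n, if f x = f y then 1 else 0 := by
  have h1 : ∀ x : Fin n, (∑ y : Fin n, if f x = f y then 1 else 0) = (pre f (f x)).card := by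
    intro x
    unfold pre
    rw [card_filter]
    refine sum_congr rfl (fun y _ => ?_)
    by_cases h : f x = f y
    · rw [if_pos h, if_pos h.symm]
    · rw [if_neg h, if_neg (fun h' => h h'.symm)]
  rw [sum_congr rfl (fun x _ => h1 x)]
  have h2 : ∑ x : Fin n, (pre f (f x)).card = ∑ v : Fin n, ∑ x ∈ univ.filter (fun x => f x = v), (pre f (f x)).card := by
    rw [sum_fiberwise]
  rw [h2]
  refine sum_congr rfl (fun v _ => ?_)
  have h3 : ∀ x ∈ univ.filter (fun x => f x = v), (pre f (f x)).card = (pre f v).card := by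
    intro x hx
    rw [mem_filter] at hx
    rw [hx.2]
  rw [sum_congr rfl h3, sum_const, smul_eq_mul, pow_two]
  rfl

theorem TL44 {n : ℕ} (Λ : ℕ) (f : Fin n → Fin n) :
    (Λ + 1) * TL Λ f ≤ (∑ x : Fin n, ∑ y : Fin n, if f x = f y then 1 else 0) + 3 * n := by
  have h1 : (Λ + 1) * TL Λ f ≤ ∑ v : Fin n, ((pre f v).card + 1) ^ 2 := by
    unfold TL
    rw [mul_sum]
    refine le_trans (sum_le_sum (fun v hv => ?_)) (sum_le_sum_of_subset (filter_subset _ _))
    rw [mem_filter] at hv
    rw [pow_two]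
    exact Nat.mul_le_mul_right _ (by omega)
  have h2 : ∑ v : Fin n, ((pre f v).card + 1) ^ 2 = (∑ v : Fin n, (pre f v).card ^ 2) + 3 * n := by
    have : ∀ v : Fin n, ((pre f v).card + 1) ^ 2 = (pre f v).card ^ 2 + (2 * (pre f v).card + 1) := by
      intro v; ring
    rw [sum_congr rfl (fun v _ => this v), sum_add_distrib, sum_add_distrib, ← mul_sum, sum_pre44]
    simp
    ring
  rw [h2, sum_sq44] at h1
  exact h1

theorem exp_TL (Λ n : ℕ) :
    ((Λ : ℝ) + 1) * ∑ f : Fin n → Fin n, ((TL Λ f : ℕ) : ℝ) ≤ 5 * n * (n : ℝ) ^ n := by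
  have h1 : ((Λ : ℝ) + 1) * ∑ f : Fin n → Fin n, ((TL Λ f : ℕ) : ℝ)
      ≤ ∑ f : Fin n → Fin n, ((∑ x : Fin n, ∑ y : Fin n, if f x = f y then (1 : ℝ) else 0) + 3 * n) := by
    rw [mul_sum]
    refine sum_le_sum (fun f _ => ?_)
    have := TL44 Λ f
    have h : (((Λ + 1) * TL Λ f : ℕ) : ℝ) ≤
        (((∑ x : Fin n, ∑ y : Fin n, if f x = f y then 1 else 0) + 3 * n : ℕ) : ℝ) := by
      exact_mod_cast this
    push_cast at h
    exact h
  refine le_trans h1 ?_
  rw [sum_add_distrib, sum_const, card_univ, Fintype.card_fun, Fintype.card_fin, nsmul_eq_mul]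
  have h2 : ∑ f : Fin n → Fin n, (∑ x : Fin n, ∑ y : Fin n, if f x = f y then (1 : ℝ) else 0)
      = ∑ x : Fin n, ∑ y : Fin n, ((univ.filter (fun f : Fin n → Fin n => f x = f y)).card : ℝ) := by
    rw [sum_comm]
    refine sum_congr rfl (fun x _ => ?_)
    rw [sum_comm]
    refine sum_congr rfl (fun y _ => ?_)
    rw [← sum_filter, sum_const, nsmul_eq_mul, mul_one]
  rw [h2]
  have h3 : ∀ x : Fin n, ∑ y : Fin n, ((univ.filter (fun f : Fin n → Fin n => f x = f y)).card : ℝ)
      ≤ 2 * (n : ℝ) ^ n := by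
    intro x
    have hn : 0 < n := lt_of_le_of_lt (Nat.zero_le _) x.2
    have hn0 : (0 : ℝ) < n := by exact_mod_cast hn
    have h4 : ∀ y : Fin n, ((univ.filter (fun f : Fin n → Fin n => f x = f y)).card : ℝ)
        ≤ (if y = x then (n : ℝ) ^ n else 0) + (n : ℝ) ^ n / n := by
      intro y
      by_cases hy : y = x
      · rw [if_pos hy]
        have h5 : ((univ.filter (fun f : Fin n → Fin n => f x = f y)).card : ℝ) ≤ (n : ℝ) ^ n := by
          have := card_le_univ (univ.filter (fun f : Fin n → Fin n => f x = f y))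
          rw [Fintype.card_fun, Fintype.card_fin] at this
          exact_mod_cast this
        have h6 : 0 ≤ (n : ℝ) ^ n / n := by positivity
        linarith
      · rw [if_neg hy, zero_add, le_div_iff₀ hn0]
        have := pair44 x y (fun h => hy h.symm)
        exact_mod_cast this
    refine le_trans (sum_le_sum (fun y _ => h4 y)) ?_
    rw [sum_add_distrib, sum_ite_eq' univ x, if_pos (mem_univ x), sum_const, card_univ, Fintype.card_fin,
      nsmul_eq_mul, mul_div_cancel₀ _ hn0.ne']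
    linarith
  have h7 : ∑ x : Fin n, ∑ y : Fin n, ((univ.filter (fun f : Fin n → Fin n => f x = f y)).card : ℝ)
      ≤ n * (2 * (n : ℝ) ^ n) := by
    refine le_trans (sum_le_sum (fun x _ => h3 x)) ?_
    rw [sum_const, card_univ, Fintype.card_fin, nsmul_eq_mul]
  push_cast
  linarith

end Pool.Agent.UC
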