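import Pool.Agent.Helper28.UC.Defs

/-!
# UC-LI: the statistics change by a bounded amount when one value of `f` is changed

`lip_ST`: let `f' = update f i a`, `a0 = f i`.  `pre f' c = pre f c` for `c ∉ {a0, a}`; so for `c ∉ {a0, a, f a0, f a}` the vertex `c` is in `ST D f` iff it is in `ST D f'` (if `x ∈ pre f c` then `x ∉ {a0, a}`, so `pre f' x = pre f x`).
The symmetric difference has at most 4 elements.
`lip_TL`: only the terms of `a0` and `a` change; the function `k ↦ (k + 1) 1_{k ≥ Λ}` changes by at most `Λ + 1` when `k` changes by 1.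
-/

set_option autoImplicit false

namespace Pool.Agent.UC

open Finset

theorem pre_update_63 {n : ℕ} (f : Fin n → Fin n) (i a c : Fin n) (h0 : c ≠ f i) (h1 : c ≠ a) :
    pre (Function.update f i a) c = pre f c := by
  ext x
  simp only [pre, mem_filter, mem_univ, true_and]
  rcases eq_or_ne x i with rfl | hx
  · rw [Function.update_self]
    exact ⟨fun h => absurd h.symm h1, fun h => absurd h.symm h0⟩
  · rw [Function.update_of_ne hx]

theorem ST_iff_63 {n : ℕ} (D : ℕ) (f : Fin n → Fin n) (i a c : Fin n) (h0 : c ≠ f i) (h1 : c ≠ a)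
    (h2 : c ≠ f (f i)) (h3 : c ≠ f a) :
    c ∈ ST D (Function.update f i a) ↔ c ∈ ST D f := by
  have e := pre_update_63 f i a c h0 h1
  simp only [ST, mem_filter, mem_univ, true_and, e]
  refine and_congr_right fun _ => ?_
  have key : ∀ x ∈ pre f c, pre (Function.update f i a) x = pre f x := by
    intro x hx
    simp only [pre, mem_filter, mem_univ, true_and] at hx
    apply pre_update_63
    · rintro rfl
      exact h2 hx.symm
    · rintro rfl
      exact h3 hx.symm
  constructor
  · intro h x hx
    rw [← key x hx]
    exact h x hx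
  · intro h x hx
    rw [key x hx]
    exact h x hx

theorem lip_ST {n : ℕ} (D : ℕ) (f : Fin n → Fin n) (i a : Fin n) :
    |((ST D (Function.update f i a)).card : ℝ) - (ST D f).card| ≤ 4 := by
  set S : Finset (Fin n) := {f i, a, f (f i), f a} with hS
  have hSc : S.card ≤ 4 := Finset.card_le_four
  have hmem : ∀ c, c ∉ S → (c ∈ ST D (Function.update f i a) ↔ c ∈ ST D f) := by
    intro c hc
    simp only [hS, mem_insert, mem_singleton, not_or] at hc
    exact ST_iff_63 D f i a c hc.1 hc.2.1 hc.2.2.1 hc.2.2.2
  have h1 : (ST D (Function.update f i a)).card ≤ (ST D f).card + 4 := by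
    calc (ST D (Function.update f i a)).card ≤ (ST D f ∪ S).card := by
          apply card_le_card
          intro c hc
          by_cases h : c ∈ S
          · exact mem_union_right _ h
          · exact mem_union_left _ ((hmem c h).1 hc)
      _ ≤ (ST D f).card + S.card := card_union_le _ _
      _ ≤ _ := by omega
  have h2 : (ST D f).card ≤ (ST D (Function.update f i a)).card + 4 := by
    calc (ST D f).card ≤ (ST D (Function.update f i a) ∪ S).card := by
          apply card_le_card
          intro c hc
          by_cases h : c ∈ S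
          · exact mem_union_right _ h
          · exact mem_union_left _ ((hmem c h).2 hc)
      _ ≤ (ST D (Function.update f i a)).card + S.card := card_union_le _ _
      _ ≤ _ := by omega
  have h1' : ((ST D (Function.update f i a)).card : ℝ) ≤ (ST D f).card + 4 := by exact_mod_cast h1
  have h2' : ((ST D f).card : ℝ) ≤ (ST D (Function.update f i a)).card + 4 := by exact_mod_cast h2
  rw [abs_le]
  constructor <;> linarith

/-- the summand of `TL` -/
def gg63 (Λ k : ℕ) : ℕ := if Λ ≤ k then k + 1 else 0

theorem gg63_succ (Λ k : ℕ) : |((gg63 Λ (k + 1) : ℕ) : ℝ) - (gg63 Λ k : ℕ)| ≤ (Λ : ℝ) + 1 := by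
  unfold gg63
  have hΛ : (0 : ℝ) ≤ Λ := Nat.cast_nonneg _
  split_ifs with h1 h2 h2
  · push_cast
    rw [abs_le]
    constructor <;> linarith
  · have : Λ = k + 1 := by omega
    subst this
    push_cast
    rw [abs_le]
    have : (0 : ℝ) ≤ k := Nat.cast_nonneg _
    constructor <;> linarith
  · omega
  · simp
    linarith

theorem TL_eq_63 {n : ℕ} (Λ : ℕ) (f : Fin n → Fin n) : TL Λ f = ∑ v, gg63 Λ (pre f v).card := by
  unfold TL gg63
  rw [Finset.sum_filter]

theorem lip_TL {n : ℕ} (Λ : ℕ) (f : Fin n → Fin n) (i a : Fin n) :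
    |((TL Λ (Function.update f i a) : ℕ) : ℝ) - (TL Λ f : ℕ)| ≤ 2 * ((Λ : ℝ) + 1) := by
  have hΛ : (0 : ℝ) ≤ Λ := Nat.cast_nonneg _
  rcases eq_or_ne a (f i) with rfl | ha
  · rw [Function.update_eq_self]
    simp
    linarith
  rw [TL_eq_63, TL_eq_63]
  push_cast
  rw [← Finset.sum_sub_distrib]
  have hz : ∀ v ∈ (univ : Finset (Fin n)), v ∉ ({f i, a} : Finset (Fin n)) →
      (((gg63 Λ (pre (Function.update f i a) v).card : ℕ) : ℝ) - (gg63 Λ (pre f v).card : ℕ)) = 0 := by
    intro v _ hv
    simp only [mem_insert, mem_singleton, not_or] at hv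
    rw [pre_update_63 f i a v hv.1 hv.2, sub_self]
  rw [← Finset.sum_subset (subset_univ ({f i, a} : Finset (Fin n))) hz, Finset.sum_pair ha.symm]
  have e1 : pre f (f i) = insert i (pre (Function.update f i a) (f i)) := by
    ext x
    simp only [pre, mem_filter, mem_univ, true_and, mem_insert]
    rcases eq_or_ne x i with rfl | hx
    · simp
    · rw [Function.update_of_ne hx]
      simp [hx]
  have e1' : i ∉ pre (Function.update f i a) (f i) := by
    simp only [pre, mem_filter, mem_univ, true_and, Function.update_self]
    exact ha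
  have e2 : pre (Function.update f i a) a = insert i (pre f a) := by
    ext x
    simp only [pre, mem_filter, mem_univ, true_and, mem_insert]
    rcases eq_or_ne x i with rfl | hx
    · simp
    · rw [Function.update_of_ne hx]
      simp [hx]
  have e2' : i ∉ pre f a := by
    simp only [pre, mem_filter, mem_univ, true_and]
    exact fun h => ha h.symm
  have c1 : (pre f (f i)).card = (pre (Function.update f i a) (f i)).card + 1 := by
    rw [e1, card_insert_of_notMem e1']
  have c2 : (pre (Function.update f i a) a).card = (pre f a).card + 1 := by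
    rw [e2, card_insert_of_notMem e2']
  rw [c1, c2]
  have g1 := gg63_succ Λ (pre (Function.update f i a) (f i)).card
  have g2 := gg63_succ Λ (pre f a).card
  rw [abs_le] at g1 g2 ⊢
  constructor <;> linarith [g1.1, g1.2, g2.1, g2.2]

end Pool.Agent.UC
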