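import Pool.Agent.Helper28.UC.Defs
import Pool.Agent.Helper73.AA.C7

/-!
# UC-LO: lower bound for the number of unicyclic graphs

`AA.card_tree_filter` (with `Q = True`) and `AA.card_FF`: there are `(m+1)^(m-1)` trees on `Fin (m+1)`, `m ≥ 1`.  For a tree `T` on `Fin n`, `n ≥ 3`, there are two different non-adjacent vertices (`T` has `n - 1 < n (n-1)/2` edges); adding this edge
gives a connected graph `G` with `n` edges.  `T = G` minus one of its `n` edges, so at most `n` trees give the same `G`: `n^(n-2) ≤ n #{unicyclic}` (`Finset.card_le_mul_card_image` or similar).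
-/

set_option autoImplicit false

namespace Pool.Agent.UC

open Finset

theorem card_inst28 {V : Type} (G : SimpleGraph V) (i1 i2 : Fintype G.edgeSet) :
    (@SimpleGraph.edgeFinset V G i1).card = (@SimpleGraph.edgeFinset V G i2).card := by
  rw [Subsingleton.elim i1 i2]

open Classical in
private theorem lo4_trees (m : ℕ) (hm : 1 ≤ m) :
    (univ.filter fun G : SimpleGraph (Fin (m + 1)) => G.IsTree).card = (m + 1) ^ (m - 1) := by
  have h1 : (univ.filter fun G : SimpleGraph (Fin (m + 1)) => G.IsTree).card =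
      (AA.FF (univ.erase (0 : Fin (m + 1))) {0}).card := by
    have := AA.card_tree_filter m fun _ => True
    simpa using this
  rw [h1, AA.card_FF _ _ (by simp)]
  · rw [card_singleton, one_mul, card_erase_of_mem (mem_univ _), card_univ, Fintype.card_fin]
    congr 1
  · refine ⟨Fin.last m, ?_⟩
    rw [mem_erase]
    refine ⟨?_, mem_univ _⟩
    intro e
    have := congrArg Fin.val e
    simp at this
    omega

open Classical in
private theorem lo4_pair (n : ℕ) (hn : 3 ≤ n) (T : SimpleGraph (Fin n)) (hT : T.IsTree) :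
    ∃ p : Fin n × Fin n, p.1 ≠ p.2 ∧ ¬ T.Adj p.1 p.2 := by
  by_contra hcon
  rw [not_exists] at hcon
  have htop : T = ⊤ := by
    ext a b
    rw [SimpleGraph.top_adj]
    constructor
    · exact fun h => h.ne
    · intro hab
      by_contra h
      exact hcon (a, b) ⟨hab, h⟩
  have h1 := hT.card_edgeFinset
  rw [Fintype.card_fin] at h1
  have h2 : (⊤ : SimpleGraph (Fin n)).edgeFinset.card = n.choose 2 := by
    rw [SimpleGraph.card_edgeFinset_top_eq_card_choose_two, Fintype.card_fin]
  have h3 : T.edgeFinset.card = n.choose 2 := by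
    rw [← h2]
    subst htop
    exact card_inst28 _ _ _
  rw [h3, Nat.choose_two_right] at h1
  have h4 : n * 2 ≤ n * (n - 1) := Nat.mul_le_mul_left _ (by omega)
  have h5 : n ≤ n * (n - 1) / 2 := by omega
  omega

open Classical in
theorem uni_lower (n : ℕ) (hn : 3 ≤ n) : n ^ (n - 2) ≤ n * (univ.filter fun G : SimpleGraph (Fin n) => Uni G).card := by
  have hcard : (univ.filter fun G : SimpleGraph (Fin n) => G.IsTree).card = n ^ (n - 2) := by
    obtain ⟨m, rfl⟩ : ∃ m, n = m + 1 := ⟨n - 1, by omega⟩
    exact lo4_trees m (by omega)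
  rw [← hcard]
  let pr : SimpleGraph (Fin n) → Fin n × Fin n := fun T =>
    if h : T.IsTree then (lo4_pair n hn T h).choose else (⟨0, by omega⟩, ⟨0, by omega⟩)
  have hpr : ∀ T : SimpleGraph (Fin n), T.IsTree →
      (pr T).1 ≠ (pr T).2 ∧ ¬ T.Adj (pr T).1 (pr T).2 := by
    intro T hT
    simp only [pr]
    rw [dif_pos hT]
    exact (lo4_pair n hn T hT).choose_spec
  refine Finset.card_le_mul_card_image_of_maps_to
    (f := fun T => T ⊔ SimpleGraph.edge (pr T).1 (pr T).2) ?_ n ?_
  · intro T hT
    rw [mem_filter] at hT ⊢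
    refine ⟨mem_univ _, hT.2.connected.mono le_sup_left, ?_⟩
    have h1 := hpr T hT.2
    have h2 := hT.2.card_edgeFinset
    rw [Fintype.card_fin] at h2
    have h3 := SimpleGraph.card_edgeFinset_sup_edge T h1.2 h1.1
    refine Eq.trans ?_ (h3.trans (Eq.trans ?_ h2))
    · exact card_inst28 _ _ _
    · exact congrArg (· + 1) (card_inst28 _ _ _)
  · intro G hG
    rw [mem_filter] at hG
    have h1 : G.edgeFinset.card = n := hG.2.2
    have h2 : (univ.filter fun T : SimpleGraph (Fin n) => T.IsTree).filter
        (fun T => T ⊔ SimpleGraph.edge (pr T).1 (pr T).2 = G) ⊆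
        G.edgeFinset.image fun e => G.deleteEdges {e} := by
      intro T hT
      rw [mem_filter, mem_filter] at hT
      obtain ⟨⟨-, hT1⟩, hT2⟩ := hT
      obtain ⟨h3, h4⟩ := hpr T hT1
      rw [mem_image]
      refine ⟨s((pr T).1, (pr T).2), ?_, ?_⟩
      · rw [SimpleGraph.mem_edgeFinset, SimpleGraph.mem_edgeSet, ← hT2, SimpleGraph.sup_adj]
        right
        rw [SimpleGraph.edge_adj]
        exact ⟨Or.inl ⟨rfl, rfl⟩, h3⟩
      · ext a b
        rw [SimpleGraph.deleteEdges_adj, ← hT2, SimpleGraph.sup_adj, SimpleGraph.edge_adj,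
          Set.mem_singleton_iff, Sym2.eq_iff]
        constructor
        · rintro ⟨h5 | ⟨h5, -⟩, h6⟩
          · exact h5
          · exact absurd (by tauto) h6
        · intro h5
          refine ⟨Or.inl h5, ?_⟩
          rintro (⟨rfl, rfl⟩ | ⟨rfl, rfl⟩)
          · exact h4 h5
          · exact h4 h5.symm
    exact (card_le_card h2).trans (card_image_le.trans h1.le)

end Pool.Agent.UC
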