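import Pool.Agent.Helper28.UC.Defs

/-!
# UC-OR: orientation of a unicyclic graph

`ori_exists`: let `T ≤ G` be a spanning tree (`SimpleGraph.Connected.exists_isTree_le`); it has `n - 1` edges (`IsTree.card_edgeFinset`), so there is an edge `a b` of `G` not in `T`.  Let `f a = b` and for `v ≠ a` let `f v` be the neighbour of `v` in `T` on
the way to `a` (e.g. `T.dist (f v) a + 1 = T.dist v a`).  Then `v ↦ s(v, f v)` is injective: on the vertices `v ≠ a` because
the distance to `a` decreases along `f`, and the image `s(a, b)` of `a` is not an edge of `T`.  As `G` has `n` edges it is a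
bijection from `Fin n` to the edges of `G`.
`deg`: as the map is injective, `f (f v) ≠ v`.  The neighbours of `v` are `f v` and the elements of `pre f v`, and `f v ∉ pre f v`.
`ori_inj`: `G.Adj u v ↔ f u = v ∨ f v = u`.
-/

set_option autoImplicit false

namespace Pool.Agent.UC

open Finset

theorem parent61 {n : ℕ} (T : SimpleGraph (Fin n)) (hT : T.Connected) (a v : Fin n) (hv : v ≠ a) :
    ∃ w, T.Adj v w ∧ T.dist w a < T.dist v a := by
  obtain ⟨p, hp⟩ := hT.exists_walk_length_eq_dist v a
  cases p with
  | nil => exact absurd rfl hv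
  | cons h q =>
    rename_i w
    refine ⟨w, h, ?_⟩
    have h1 : T.dist w a ≤ q.length := SimpleGraph.dist_le q
    rw [SimpleGraph.Walk.length_cons] at hp
    omega

theorem ori_exists {n : ℕ} (G : SimpleGraph (Fin n)) (h : Uni G) : ∃ f : Fin n → Fin n, Ori G f := by
  classical
  obtain ⟨hc, hcard⟩ := h
  obtain ⟨T, hTG, hT⟩ := hc.exists_isTree_le
  have hTc : T.edgeFinset.card + 1 = n := by
    have := hT.card_edgeFinset
    rw [Fintype.card_fin] at this
    convert this using 2
  have hcard' : G.edgeFinset.card = n := by
    convert hcard using 2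
  -- an edge of G not in T
  have hex : ∃ a b, G.Adj a b ∧ ¬ T.Adj a b := by
    by_contra hcon
    push Not at hcon
    have hsub : G.edgeFinset ⊆ T.edgeFinset := by
      intro e he
      induction e using Sym2.ind with
      | _ x y =>
        rw [SimpleGraph.mem_edgeFinset, SimpleGraph.mem_edgeSet] at he ⊢
        exact hcon x y he
    have := Finset.card_le_card hsub
    omega
  obtain ⟨a, b, hab, hnab⟩ := hex
  have hpar : ∀ v, ∃ w, v ≠ a → T.Adj v w ∧ T.dist w a < T.dist v a := by
    intro v
    by_cases hv : v = a
    · exact ⟨a, fun h => absurd hv h⟩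
    · obtain ⟨w, hw⟩ := parent61 T hT.1 a v hv
      exact ⟨w, fun _ => hw⟩
  choose g hg using hpar
  let f : Fin n → Fin n := fun v => if v = a then b else g v
  have hfa : f a = b := by simp [f]
  have hfv : ∀ v, v ≠ a → f v = g v := by intro v hv; simp [f, hv]
  have hadj : ∀ v, G.Adj v (f v) := by
    intro v
    by_cases hv : v = a
    · rw [hv, hfa]; exact hab
    · rw [hfv v hv]; exact hTG (hg v hv).1
  have hinj : Function.Injective (fun v => s(v, f v)) := by
    intro u v huv
    simp only at huv
    by_contra hne
    rw [Sym2.eq_iff] at huv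
    rcases huv with ⟨h1, _⟩ | ⟨h1, h2⟩
    · exact hne h1
    · by_cases hu : u = a
      · -- then v ≠ a, f v = a, v = f a = b
        have hva : v ≠ a := fun h => hne (hu.trans h.symm)
        have h3 := (hg v hva).1
        rw [← hfv v hva, ← h1, hu] at h3
        rw [hu, hfa] at h2
        rw [← h2] at h3
        exact hnab h3.symm
      · by_cases hv : v = a
        · have h3 := (hg u hu).1
          rw [← hfv u hu, h2, hv] at h3
          rw [hv, hfa] at h1
          rw [h1] at h3
          exact hnab h3.symm
        · have h3 := (hg u hu).2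
          have h4 := (hg v hv).2
          rw [← hfv u hu, h2] at h3
          rw [← hfv v hv, ← h1] at h4
          omega
  have hsurj : ∀ e ∈ G.edgeFinset, ∃ v, s(v, f v) = e := by
    have himg : (univ.image fun v => s(v, f v)) = G.edgeFinset := by
      apply Finset.eq_of_subset_of_card_le
      · intro e he
        obtain ⟨v, _, rfl⟩ := Finset.mem_image.1 he
        rw [SimpleGraph.mem_edgeFinset, SimpleGraph.mem_edgeSet]
        exact hadj v
      · rw [Finset.card_image_of_injective _ hinj, hcard']
        simp
    intro e he
    rw [← himg] at he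
    obtain ⟨v, _, hv⟩ := Finset.mem_image.1 he
    exact ⟨v, hv⟩
  have hall : ∀ u v, G.Adj u v → f u = v ∨ f v = u := by
    intro u v huv
    obtain ⟨w, hw⟩ := hsurj s(u, v) (by
      rw [SimpleGraph.mem_edgeFinset, SimpleGraph.mem_edgeSet]; exact huv)
    rw [Sym2.eq_iff] at hw
    rcases hw with ⟨h1, h2⟩ | ⟨h1, h2⟩
    · left; rw [← h1]; exact h2
    · right; rw [← h1]; exact h2
  refine ⟨f, hadj, hall, ?_⟩
  intro v
  have hnb : G.neighborFinset v = insert (f v) (pre f v) := by
    ext w
    rw [SimpleGraph.mem_neighborFinset, Finset.mem_insert, pre, Finset.mem_filter]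
    constructor
    · intro hw
      rcases hall v w hw with h1 | h1
      · left; exact h1.symm
      · right; exact ⟨Finset.mem_univ _, h1⟩
    · rintro (h1 | ⟨_, h1⟩)
      · rw [h1]; exact hadj v
      · rw [← h1]; exact (hadj w).symm
  have hnot : f v ∉ pre f v := by
    intro hmem
    rw [pre, Finset.mem_filter] at hmem
    have h1 : f (f v) = v := hmem.2
    have h2 : (fun v => s(v, f v)) (f v) = (fun v => s(v, f v)) v := by
      simp only [h1]
      exact Sym2.eq_swap
    have h3 := hinj h2
    have h4 := hadj v
    rw [h3] at h4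
    exact G.loopless.irrefl _ h4
  have hd : G.degree v = (insert (f v) (pre f v)).card := by
    rw [← hnb]
    simp [SimpleGraph.card_neighborFinset_eq_degree]
  rw [← Finset.card_insert_of_notMem hnot]
  convert hd using 1

theorem ori_inj {n : ℕ} {G G' : SimpleGraph (Fin n)} {f : Fin n → Fin n} (h : Ori G f) (h' : Ori G' f) :
    G = G' := by
  ext u v
  have key : ∀ {H : SimpleGraph (Fin n)}, Ori H f → (H.Adj u v ↔ f u = v ∨ f v = u) := by
    intro H hH
    constructor
    · exact hH.all u v
    · rintro (h1 | h1)
      · rw [← h1]; exact hH.adj u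
      · rw [← h1]; exact (hH.adj v).symm
  rw [key h, key h']

end Pool.Agent.UC
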