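import Pool.Agent.Helper28.UC.Defs
import Pool.Agent.Helper28.GRC.UND

/-!
# UC-ST: degrees in terms of the orientation

`pl2_ge`: for `v ∈ ST 1 f`, `pre f v = {x}`, `pre f x = ∅`: `x` has degree 1, `v` has degree 2, they are adjacent; `v = f x`, so different `v` give different `x`.
`stg_ge`: `c ∈ ST D f` has degree `D + 1`; its neighbours are the `D` elements of `pre f c` (degree 1) and `f c` (which has the preimage `c`, so degree `≥ 2`; `f c ∉ pre f c` by the degree formula).
`tail_le`: `Λ < deg v ↔ Λ ≤ |pre f v|` (equality holds).  `deg_le`: if `Λ < deg v` then `deg v` is one term of `TL Λ f`.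
-/

set_option autoImplicit false

namespace Pool.Agent.UC

open Finset Pool.Agent.GRC

open Classical in
theorem pl2_ge {n : ℕ} {G : SimpleGraph (Fin n)} {f : Fin n → Fin n} (h : Ori G f) :
    (ST 1 f).card ≤ (univ.filter fun u => PL2 G u).card := by
  have hsub : ST 1 f ⊆ (univ.filter fun u => PL2 G u).image f := by
    intro v hv
    obtain ⟨-, h1, h2⟩ := Finset.mem_filter.1 hv
    obtain ⟨x, hx⟩ := Finset.card_eq_one.1 h1
    have hxm : x ∈ pre f v := by rw [hx]; exact Finset.mem_singleton_self x
    have hfx : f x = v := (Finset.mem_filter.1 hxm).2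
    refine Finset.mem_image.2 ⟨x, Finset.mem_filter.2 ⟨Finset.mem_univ _, ?_, v, ?_, ?_⟩, hfx⟩
    · have := h.deg x
      rw [h2 x hxm, Finset.card_empty] at this
      convert this
    · have := h.adj x
      rwa [hfx] at this
    · have := h.deg v
      rw [h1] at this
      convert this
  exact (Finset.card_le_card hsub).trans Finset.card_image_le

open Classical in
theorem stg_ge {n D : ℕ} {G : SimpleGraph (Fin n)} {f : Fin n → Fin n} (h : Ori G f) (hD : 1 ≤ D) :
    (ST D f).card ≤ (univ.filter fun c => StG G D c).card := by
  refine Finset.card_le_card fun c hc => ?_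
  obtain ⟨-, h1, h2⟩ := Finset.mem_filter.1 hc
  refine Finset.mem_filter.2 ⟨Finset.mem_univ _, ?_, ?_⟩
  · have := h.deg c
    rw [h1] at this
    convert this
  · rw [← h1]
    congr 1
    ext u
    constructor
    · intro hu
      obtain ⟨-, hu1, hu2⟩ := Finset.mem_filter.1 hu
      refine Finset.mem_filter.2 ⟨Finset.mem_univ _, ?_⟩
      rcases h.all c u hu1 with hcu | huc
      · exfalso
        have hcm : c ∈ pre f u := Finset.mem_filter.2 ⟨Finset.mem_univ _, hcu⟩
        have hpos : 0 < (pre f u).card := Finset.card_pos.2 ⟨c, hcm⟩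
        have hd := h.deg u
        have hd' : (pre f u).card + 1 = 1 := by
          rw [← hd]
          convert hu2
        omega
      · exact huc
    · intro hu
      have hfu : f u = c := (Finset.mem_filter.1 hu).2
      refine Finset.mem_filter.2 ⟨Finset.mem_univ _, ?_, ?_⟩
      · have := h.adj u
        rw [hfu] at this
        exact this.symm
      · have := h.deg u
        rw [h2 u hu, Finset.card_empty] at this
        convert this

open Classical in
theorem tail_le {n : ℕ} (Λ : ℕ) {G : SimpleGraph (Fin n)} {f : Fin n → Fin n} (h : Ori G f) :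
    ∑ v ∈ univ.filter (fun v => Λ < G.degree v), G.degree v ≤ TL Λ f := by
  refine le_of_eq ?_
  unfold TL
  refine Finset.sum_congr ?_ fun v _ => ?_
  · ext v
    simp only [Finset.mem_filter, Finset.mem_univ, true_and]
    have hd := h.deg v
    constructor
    · intro hv
      have : Λ < (pre f v).card + 1 := by rw [← hd]; convert hv
      omega
    · intro hv
      have : Λ < (pre f v).card + 1 := by omega
      rw [← hd] at this
      convert this
  · have hd := h.deg v
    convert hd

open Classical in
theorem deg_le {n : ℕ} (Λ : ℕ) {G : SimpleGraph (Fin n)} {f : Fin n → Fin n} (h : Ori G f) (v : Fin n) :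
    G.degree v ≤ max Λ (TL Λ f) := by
  have hd : G.degree v = (pre f v).card + 1 := by
    have hd := h.deg v
    convert hd
  rw [hd]
  by_cases hv : Λ ≤ (pre f v).card
  · refine le_trans ?_ (le_max_right _ _)
    unfold TL
    exact Finset.single_le_sum (f := fun v => (pre f v).card + 1) (fun _ _ => Nat.zero_le _)
      (Finset.mem_filter.2 ⟨Finset.mem_univ v, hv⟩)
  · refine le_trans ?_ (le_max_left _ _)
    omega

end Pool.Agent.UC
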