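import Pool.Agent.Helper28.UC.BD
import Pool.Agent.Helper28.UC.LI
import Pool.Agent.Helper28.UC.EX
import Pool.Agent.Helper28.UC.OR
import Pool.Agent.Helper28.UC.ST
import Pool.Agent.Helper28.UC.LO

/-!
# UC-AU: a property of good unicyclic graphs holds for almost all unicyclic graphs

Proof in words.  Let `c`, `c'` be the constants of `exp_ST 1`, `exp_ST D`, `ε = min(c, c', 1)/2`, `η` from `h ε`; `Λ` with `5/(Λ+1) ≤ η/2`; `δ, n0` from `h`; `Λ'` with `5/(Λ'+1) ≤ δ/2`.  If `G` is unicyclic, `n` is large and `P n G` fails then an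
orientation `f` of `G` (`ori_exists`) satisfies one of: `|ST 1 f| < ε n`; `|ST D f| < ε n`; `TL Λ f > η n`; `TL Λ' f > δ n` (otherwise all degrees are `≤ max Λ' (δ n) = δ n`, `deg_le`).  By `bdd_up`, `bdd_lo`, `lip_ST`, `lip_TL`, `exp_ST`, `exp_TL`
(the means are `≥ 2 ε n`, `≥ 2 ε n`, `≤ η n/2`, `≤ δ n/2`) each of these sets of functions has at most `exp(- b n) n^n` elements with a constant `b > 0`; by `ori_inj` at most `4 exp(-b n) n^n` graphs are bad, and there are at least `n^(n-3)` unicyclic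
graphs (`uni_lower`).  So the fraction of bad graphs is at most `4 n^3 exp(-b n) → 0`.
-/

set_option autoImplicit false

namespace Pool.Agent.UC

open Finset Filter Topology Pool.Agent.GRC

open Classical in
/-- the lower deviations of the star statistic -/
theorem low_set_h32 {n D : ℕ} (hn : 0 < n) {c ε : ℝ} (hε : 0 < ε) (hc : 2 * ε ≤ c)
    (hsum : c * n * (n : ℝ) ^ n ≤ ∑ f : Fin n → Fin n, ((ST D f).card : ℝ)) :
    ((univ.filter fun f : Fin n → Fin n => ((ST D f).card : ℝ) < ε * n).card : ℝ) ≤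
      Real.exp (-(ε ^ 2 / (2 * 4 ^ 2)) * n) * (n : ℝ) ^ n := by
  have : Nonempty (Fin n) := ⟨⟨0, hn⟩⟩
  have hb := bdd_lo n (fun f : Fin n → Fin n => ((ST D f).card : ℝ)) 4 (by norm_num)
    (fun f i a => lip_ST D f i a) ε hε
  simp only [Fintype.card_fin] at hb
  refine le_trans ?_ hb
  have hpow : (0 : ℝ) < (n : ℝ) ^ n := by positivity
  have hnR : (0 : ℝ) < n := by exact_mod_cast hn
  have hmean : 2 * ε * n ≤ (∑ f : Fin n → Fin n, ((ST D f).card : ℝ)) / (n : ℝ) ^ n := by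
    rw [le_div_iff₀ hpow]
    refine le_trans ?_ hsum
    have : 2 * ε * n ≤ c * n := mul_le_mul_of_nonneg_right hc hnR.le
    exact mul_le_mul_of_nonneg_right this hpow.le
  refine Nat.cast_le.mpr (Finset.card_le_card (fun f hf => ?_))
  simp only [mem_filter, mem_univ, true_and] at hf ⊢
  linarith

open Classical in
/-- the upper deviations of the tail statistic -/
theorem up_set_h32 {n Λ : ℕ} (hn : 0 < n) {η : ℝ} (hη : 0 < η) (hΛ : 10 ≤ η * ((Λ : ℝ) + 1)) :
    ((univ.filter fun f : Fin n → Fin n => η * n < ((TL Λ f : ℕ) : ℝ)).card : ℝ) ≤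
      Real.exp (-((η / 2) ^ 2 / (2 * (2 * ((Λ : ℝ) + 1)) ^ 2)) * n) * (n : ℝ) ^ n := by
  have : Nonempty (Fin n) := ⟨⟨0, hn⟩⟩
  have hΛ1 : (0 : ℝ) < (Λ : ℝ) + 1 := by positivity
  have hb := bdd_up n (fun f : Fin n → Fin n => ((TL Λ f : ℕ) : ℝ)) (2 * ((Λ : ℝ) + 1)) (by positivity)
    (fun f i a => lip_TL Λ f i a) (η / 2) (by positivity)
  simp only [Fintype.card_fin] at hb
  refine le_trans ?_ hb
  have hpow : (0 : ℝ) < (n : ℝ) ^ n := by positivity
  have hnR : (0 : ℝ) < n := by exact_mod_cast hn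
  have hmean : (∑ f : Fin n → Fin n, ((TL Λ f : ℕ) : ℝ)) / (n : ℝ) ^ n ≤ η / 2 * n := by
    rw [div_le_iff₀ hpow]
    have h1 := exp_TL Λ n
    have h2 : ((Λ : ℝ) + 1) * (∑ f : Fin n → Fin n, ((TL Λ f : ℕ) : ℝ)) ≤
        ((Λ : ℝ) + 1) * (η / 2 * n * (n : ℝ) ^ n) := by
      refine le_trans h1 ?_
      have h3 : 5 * ((n : ℝ) * (n : ℝ) ^ n) ≤ (η * ((Λ : ℝ) + 1) / 2) * ((n : ℝ) * (n : ℝ) ^ n) := by
        apply mul_le_mul_of_nonneg_right _ (by positivity)
        linarith
      calc (5 : ℝ) * n * (n : ℝ) ^ n = 5 * ((n : ℝ) * (n : ℝ) ^ n) := by ring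
        _ ≤ (η * ((Λ : ℝ) + 1) / 2) * ((n : ℝ) * (n : ℝ) ^ n) := h3
        _ = ((Λ : ℝ) + 1) * (η / 2 * n * (n : ℝ) ^ n) := by ring
    exact le_of_mul_le_mul_left h2 hΛ1
  refine Nat.cast_le.mpr (Finset.card_le_card (fun f hf => ?_))
  simp only [mem_filter, mem_univ, true_and] at hf ⊢
  linarith

open Classical in
theorem almost_uni (D : ℕ) (hD : 1 ≤ D) (P : (n : ℕ) → SimpleGraph (Fin n) → Prop)
    (h : ∀ ε : ℝ, 0 < ε → ε ≤ 1 → ∃ η : ℝ, 0 < η ∧ ∀ Λ : ℕ, ∃ δ : ℝ, 0 < δ ∧ ∃ n0 : ℕ,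
      ∀ (n : ℕ) (G : SimpleGraph (Fin n)), n0 ≤ n → Uni G → (∀ v, (G.degree v : ℝ) ≤ δ * n) →
      ((∑ v ∈ univ.filter (fun v => Λ < G.degree v), G.degree v : ℕ) : ℝ) ≤ η * n →
      ε * n ≤ ((univ.filter fun u => PL2 G u).card : ℝ) →
      ε * n ≤ ((univ.filter fun c => StG G D c).card : ℝ) → P n G) :
    Tendsto (fun n : ℕ => ((univ.filter fun G : SimpleGraph (Fin n) => Uni G ∧ P n G).card : ℝ) /
      (univ.filter fun G : SimpleGraph (Fin n) => Uni G).card) atTop (𝓝 1) := by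
  obtain ⟨c1, hc1, m1, hm1⟩ := exp_ST 1 le_rfl
  obtain ⟨c2, hc2, m2, hm2⟩ := exp_ST D hD
  set ε : ℝ := min (min c1 c2) 1 / 2 with hεdef
  have hε : 0 < ε := by
    have : 0 < min (min c1 c2) 1 := lt_min (lt_min hc1 hc2) one_pos
    positivity
  have hε1 : ε ≤ 1 := by
    have : min (min c1 c2) 1 ≤ 1 := min_le_right _ _
    rw [hεdef]; linarith
  have hεc1 : 2 * ε ≤ c1 := by
    have : min (min c1 c2) 1 ≤ c1 := le_trans (min_le_left _ _) (min_le_left _ _)
    rw [hεdef]; linarith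
  have hεc2 : 2 * ε ≤ c2 := by
    have : min (min c1 c2) 1 ≤ c2 := le_trans (min_le_left _ _) (min_le_right _ _)
    rw [hεdef]; linarith
  obtain ⟨η, hη, hη'⟩ := h ε hε hε1
  obtain ⟨Λ, hΛ⟩ : ∃ Λ : ℕ, 10 ≤ η * ((Λ : ℝ) + 1) := by
    obtain ⟨Λ, hΛ⟩ := exists_nat_ge (10 / η)
    refine ⟨Λ, ?_⟩
    rw [div_le_iff₀ hη] at hΛ
    nlinarith
  obtain ⟨δ, hδ, n0, hP⟩ := hη' Λ
  obtain ⟨Λ', hΛ'⟩ : ∃ Λ' : ℕ, 10 ≤ δ * ((Λ' : ℝ) + 1) := by
    obtain ⟨Λ', hΛ'⟩ := exists_nat_ge (10 / δ)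
    refine ⟨Λ', ?_⟩
    rw [div_le_iff₀ hδ] at hΛ'
    nlinarith
  obtain ⟨m3, hm3⟩ := exists_nat_ge ((Λ' : ℝ) / δ)
  -- the constant
  set b1 : ℝ := ε ^ 2 / (2 * 4 ^ 2) with hb1
  set b2 : ℝ := (η / 2) ^ 2 / (2 * (2 * ((Λ : ℝ) + 1)) ^ 2) with hb2
  set b3 : ℝ := (δ / 2) ^ 2 / (2 * (2 * ((Λ' : ℝ) + 1)) ^ 2) with hb3
  have hb1p : 0 < b1 := by positivity
  have hb2p : 0 < b2 := by positivity
  have hb3p : 0 < b3 := by positivity
  set b : ℝ := min b1 (min b2 b3) with hbdef
  have hb : 0 < b := lt_min hb1p (lt_min hb2p hb3p)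
  have hbb1 : b ≤ b1 := min_le_left _ _
  have hbb2 : b ≤ b2 := le_trans (min_le_right _ _) (min_le_left _ _)
  have hbb3 : b ≤ b3 := le_trans (min_le_right _ _) (min_le_right _ _)
  -- the bad graphs
  have hbad : ∀ n : ℕ, max (max n0 (max m1 m2)) (max m3 3) ≤ n →
      ((univ.filter fun G : SimpleGraph (Fin n) => Uni G ∧ ¬ P n G).card : ℝ) ≤
        4 * (Real.exp (-b * n) * (n : ℝ) ^ n) := by
    intro n hn
    have hn0 : n0 ≤ n := le_trans (le_trans (le_max_left _ _) (le_max_left _ _)) hn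
    have hnm1 : m1 ≤ n := le_trans (le_trans (le_max_left m1 m2) (le_trans (le_max_right _ _)
      (le_max_left _ _))) hn
    have hnm2 : m2 ≤ n := le_trans (le_trans (le_max_right m1 m2) (le_trans (le_max_right _ _)
      (le_max_left _ _))) hn
    have hnm3 : m3 ≤ n := le_trans (le_trans (le_max_left m3 3) (le_max_right _ _)) hn
    have hn3 : 3 ≤ n := le_trans (le_trans (le_max_right m3 3) (le_max_right _ _)) hn
    have hnpos : 0 < n := by omega
    have hnR : (0 : ℝ) < n := by exact_mod_cast hnpos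
    have hpow : (0 : ℝ) < (n : ℝ) ^ n := by positivity
    have hΛn : (Λ' : ℝ) ≤ δ * n := by
      rw [div_le_iff₀ hδ] at hm3
      have : (m3 : ℝ) ≤ n := by exact_mod_cast hnm3
      nlinarith
    -- choice of orientations
    let S1 : Finset (Fin n → Fin n) := univ.filter fun f => ((ST 1 f).card : ℝ) < ε * n
    let S2 : Finset (Fin n → Fin n) := univ.filter fun f => ((ST D f).card : ℝ) < ε * n
    let S3 : Finset (Fin n → Fin n) := univ.filter fun f => η * n < ((TL Λ f : ℕ) : ℝ)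
    let S4 : Finset (Fin n → Fin n) := univ.filter fun f => δ * n < ((TL Λ' f : ℕ) : ℝ)
    let or : SimpleGraph (Fin n) → (Fin n → Fin n) := fun G =>
      if hG : Uni G then (ori_exists G hG).choose else id
    have hor : ∀ G, Uni G → Ori G (or G) := by
      intro G hG
      simp only [or, dif_pos hG]
      exact (ori_exists G hG).choose_spec
    have hcard : (univ.filter fun G : SimpleGraph (Fin n) => Uni G ∧ ¬ P n G).card ≤
        (S1 ∪ (S2 ∪ (S3 ∪ S4))).card := by
      apply Finset.card_le_card_of_injOn or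
      · intro G hG
        simp only [coe_filter, mem_univ, true_and, Set.mem_ofPred_eq] at hG
        obtain ⟨hU, hnP⟩ := hG
        have hO := hor G hU
        by_contra hcon
        have hcon' : or G ∉ S1 ∪ (S2 ∪ (S3 ∪ S4)) := by simpa using hcon
        simp only [mem_union, not_or, S1, S2, S3, S4, mem_filter, mem_univ, true_and, not_lt] at hcon'
        obtain ⟨h1, h2, h3, h4⟩ := hcon'
        apply hnP
        apply hP n G hn0 hU
        · intro v
          have := deg_le Λ' hO v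
          have h5 : (G.degree v : ℝ) ≤ max (Λ' : ℝ) ((TL Λ' (or G) : ℕ) : ℝ) := by
            exact_mod_cast this
          exact le_trans h5 (max_le hΛn h4)
        · have := tail_le Λ hO
          have h5 : ((∑ v ∈ univ.filter (fun v => Λ < G.degree v), G.degree v : ℕ) : ℝ) ≤
              ((TL Λ (or G) : ℕ) : ℝ) := by exact_mod_cast this
          exact le_trans h5 h3
        · have := pl2_ge hO
          exact le_trans h1 (by exact_mod_cast this)
        · have := stg_ge (D := D) hO hD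
          exact le_trans h2 (by exact_mod_cast this)
      · intro G hG G' hG' hEq
        simp only [coe_filter, mem_univ, true_and, Set.mem_ofPred_eq] at hG hG'
        have h1 := hor G hG.1
        have h2 := hor G' hG'.1
        rw [hEq] at h1
        exact ori_inj h1 h2
    have hu1 := Finset.card_union_le S1 (S2 ∪ (S3 ∪ S4))
    have hu2 := Finset.card_union_le S2 (S3 ∪ S4)
    have hu3 := Finset.card_union_le S3 S4
    have hexp : ∀ b' : ℝ, b ≤ b' → Real.exp (-b' * n) * (n : ℝ) ^ n ≤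
        Real.exp (-b * n) * (n : ℝ) ^ n := by
      intro b' hb'
      apply mul_le_mul_of_nonneg_right _ hpow.le
      apply Real.exp_le_exp.mpr
      nlinarith
    have e1 : (S1.card : ℝ) ≤ Real.exp (-b * n) * (n : ℝ) ^ n :=
      le_trans (low_set_h32 hnpos hε hεc1 (hm1 n hnm1)) (hexp b1 hbb1)
    have e2 : (S2.card : ℝ) ≤ Real.exp (-b * n) * (n : ℝ) ^ n :=
      le_trans (low_set_h32 hnpos hε hεc2 (hm2 n hnm2)) (hexp b1 hbb1)
    have e3 : (S3.card : ℝ) ≤ Real.exp (-b * n) * (n : ℝ) ^ n :=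
      le_trans (up_set_h32 hnpos hη hΛ) (hexp b2 hbb2)
    have e4 : (S4.card : ℝ) ≤ Real.exp (-b * n) * (n : ℝ) ^ n :=
      le_trans (up_set_h32 hnpos hδ hΛ') (hexp b3 hbb3)
    have hall : (univ.filter fun G : SimpleGraph (Fin n) => Uni G ∧ ¬ P n G).card ≤
        S1.card + (S2.card + (S3.card + S4.card)) := by omega
    have hallR : ((univ.filter fun G : SimpleGraph (Fin n) => Uni G ∧ ¬ P n G).card : ℝ) ≤
        S1.card + (S2.card + (S3.card + S4.card)) := by exact_mod_cast hall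
    linarith
  -- the ratio
  have hratio : ∀ n : ℕ, max (max n0 (max m1 m2)) (max m3 3) ≤ n →
      1 - 4 * ((n : ℝ) ^ 3 * Real.exp (-b * n)) ≤
        ((univ.filter fun G : SimpleGraph (Fin n) => Uni G ∧ P n G).card : ℝ) /
          (univ.filter fun G : SimpleGraph (Fin n) => Uni G).card ∧
      ((univ.filter fun G : SimpleGraph (Fin n) => Uni G ∧ P n G).card : ℝ) /
          (univ.filter fun G : SimpleGraph (Fin n) => Uni G).card ≤ 1 := by
    intro n hn
    have hn3 : 3 ≤ n := le_trans (le_trans (le_max_right m3 3) (le_max_right _ _)) hn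
    have hnpos : 0 < n := by omega
    have hnR : (0 : ℝ) < n := by exact_mod_cast hnpos
    have hlow := uni_lower n hn3
    have hsplit : (univ.filter fun G : SimpleGraph (Fin n) => Uni G ∧ P n G).card +
        (univ.filter fun G : SimpleGraph (Fin n) => Uni G ∧ ¬ P n G).card =
        (univ.filter fun G : SimpleGraph (Fin n) => Uni G).card := by
      rw [← Finset.filter_filter, ← Finset.filter_filter]
      exact Finset.card_filter_add_card_filter_not _
    set U : ℕ := (univ.filter fun G : SimpleGraph (Fin n) => Uni G).card with hU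
    have hUpos : 0 < U := by
      rcases Nat.eq_zero_or_pos U with h0 | h0
      · rw [h0, Nat.mul_zero] at hlow
        have : 0 < n ^ (n - 2) := Nat.pow_pos hnpos
        omega
      · exact h0
    have hURpos : (0 : ℝ) < U := by exact_mod_cast hUpos
    have hsplitR : ((univ.filter fun G : SimpleGraph (Fin n) => Uni G ∧ P n G).card : ℝ) +
        ((univ.filter fun G : SimpleGraph (Fin n) => Uni G ∧ ¬ P n G).card : ℝ) = U := by
      exact_mod_cast hsplit
    constructor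
    · rw [le_div_iff₀ hURpos]
      have hb' := hbad n hn
      have hlowR : (n : ℝ) ^ (n - 2) ≤ n * U := by exact_mod_cast hlow
      have hpown : (n : ℝ) ^ n = (n : ℝ) ^ 2 * (n : ℝ) ^ (n - 2) := by
        rw [← pow_add]; congr 1; omega
      have h1 : (n : ℝ) ^ n ≤ (n : ℝ) ^ 3 * U := by
        rw [hpown]
        calc (n : ℝ) ^ 2 * (n : ℝ) ^ (n - 2) ≤ (n : ℝ) ^ 2 * (n * U) :=
              mul_le_mul_of_nonneg_left hlowR (by positivity)
          _ = (n : ℝ) ^ 3 * U := by ring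
      have h2 : Real.exp (-b * n) * (n : ℝ) ^ n ≤ Real.exp (-b * n) * ((n : ℝ) ^ 3 * U) :=
        mul_le_mul_of_nonneg_left h1 (Real.exp_pos _).le
      have h3 : (1 - 4 * ((n : ℝ) ^ 3 * Real.exp (-b * n))) * U =
          U - 4 * (Real.exp (-b * n) * ((n : ℝ) ^ 3 * U)) := by ring
      rw [h3]
      linarith
    · rw [div_le_one hURpos]
      have : (0 : ℝ) ≤ ((univ.filter fun G : SimpleGraph (Fin n) => Uni G ∧ ¬ P n G).card : ℝ) :=
        Nat.cast_nonneg _
      linarith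
  have hlim : Tendsto (fun n : ℕ => 1 - 4 * ((n : ℝ) ^ 3 * Real.exp (-b * n))) atTop (𝓝 1) := by
    have h1 : Tendsto (fun n : ℕ => b * (n : ℝ)) atTop atTop :=
      Tendsto.const_mul_atTop hb tendsto_natCast_atTop_atTop
    have h2 := (Real.tendsto_pow_mul_exp_neg_atTop_nhds_zero 3).comp h1
    have h3 : Tendsto (fun n : ℕ => 4 / b ^ 3 * ((b * (n : ℝ)) ^ 3 * Real.exp (-(b * (n : ℝ)))))
        atTop (𝓝 (4 / b ^ 3 * 0)) := h2.const_mul _
    have h4 : Tendsto (fun n : ℕ => 1 - 4 / b ^ 3 * ((b * (n : ℝ)) ^ 3 * Real.exp (-(b * (n : ℝ)))))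
        atTop (𝓝 (1 - 4 / b ^ 3 * 0)) := tendsto_const_nhds.sub h3
    rw [mul_zero, sub_zero] at h4
    refine h4.congr (fun n => ?_)
    rw [neg_mul]
    field_simp
  refine tendsto_of_tendsto_of_tendsto_of_le_of_le' hlim tendsto_const_nhds ?_ ?_
  · filter_upwards [eventually_ge_atTop (max (max n0 (max m1 m2)) (max m3 3))] with n hn
    exact (hratio n hn).1
  · filter_upwards [eventually_ge_atTop (max (max n0 (max m1 m2)) (max m3 3))] with n hn
    exact (hratio n hn).2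

end Pool.Agent.UC
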