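import Pool.Agent.Helper28.UC.Defs

/-!
# UC-BD: bounded differences inequality on finite product spaces

Proof in words.  Let `E F` be the mean of `F : (Fin n → α) → ℝ`, and let `F` change by at most `L` when one coordinate is changed.  Claim: `E exp(λ (F - E F)) ≤ exp(n λ² L²/2)` for all real `λ`, by induction on `n`:
`n = 0`: `F` is constant.  Step: for `a : α` let `F_a(g) = F(cons a g)`, `m_a = E F_a`; then `|m_a - m_b| ≤ L`, `E F = E_a m_a`, and
`E exp(λ (F - E F)) = E_a [exp(λ (m_a - E F)) E_g exp(λ (F_a - m_a))] ≤ exp(n λ² L²/2) E_a exp(λ (m_a - E F))`.  For a mean zero function `Y` with `|Y| ≤ L`: convexity gives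
`exp(λ Y) ≤ cosh(λ L) + (Y/L) sinh(λ L)`, so `E exp(λ Y) ≤ cosh(λ L) ≤ exp(λ² L²/2)` (`Real.cosh_le_exp_half_sq`).
(`Fin.consEquiv` or `Fin.insertNthEquiv`, `Fintype.sum_prod_type`.)
Markov with `λ = s/L²`: `#{F ≥ E F + s n} ≤ exp(- λ s n) ∑ exp(λ (F - E F)) ≤ exp(- s² n/(2 L²)) |α|^n`.
-/

set_option autoImplicit false

namespace Pool.Agent.UC

open Finset

theorem h46_exp_chord (c L y : ℝ) (hL : 0 < L) (hy : |y| ≤ L) :
    Real.exp (c * y) ≤ Real.cosh (c * L) + y / L * Real.sinh (c * L) := by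
  have h1 := abs_le.1 hy
  have hconv := convexOn_exp
  have ha : 0 ≤ (L + y) / (2 * L) := by
    apply div_nonneg <;> linarith
  have hb : 0 ≤ (L - y) / (2 * L) := by
    apply div_nonneg <;> linarith
  have hab : (L + y) / (2 * L) + (L - y) / (2 * L) = 1 := by
    field_simp; ring
  have h := hconv.2 (Set.mem_univ (c * L)) (Set.mem_univ (-(c * L))) ha hb hab
  simp only [smul_eq_mul] at h
  have e1 : (L + y) / (2 * L) * (c * L) + (L - y) / (2 * L) * -(c * L) = c * y := by
    field_simp; ring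
  rw [e1] at h
  refine h.trans (le_of_eq ?_)
  rw [Real.cosh_eq, Real.sinh_eq]
  field_simp
  ring

theorem h46_hoeffding {α : Type} [Fintype α] (Y : α → ℝ) (c L : ℝ) (hL : 0 < L)
    (hY : ∀ a, |Y a| ≤ L) (h0 : ∑ a, Y a = 0) :
    ∑ a, Real.exp (c * Y a) ≤ Real.exp (c ^ 2 * L ^ 2 / 2) * (Fintype.card α : ℝ) := by
  calc ∑ a, Real.exp (c * Y a)
      ≤ ∑ a, (Real.cosh (c * L) + Y a / L * Real.sinh (c * L)) :=
        Finset.sum_le_sum fun a _ => h46_exp_chord c L (Y a) hL (hY a)
    _ = (Fintype.card α : ℝ) * Real.cosh (c * L) := by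
        rw [Finset.sum_add_distrib, ← Finset.sum_mul, ← Finset.sum_div, h0]
        simp
    _ ≤ (Fintype.card α : ℝ) * Real.exp (c ^ 2 * L ^ 2 / 2) := by
        apply mul_le_mul_of_nonneg_left _ (Nat.cast_nonneg _)
        have := Real.cosh_le_exp_half_sq (c * L)
        rwa [mul_pow] at this
    _ = _ := by ring

theorem h46_mgf {α : Type} [Fintype α] [Nonempty α] (n : ℕ) : ∀ (F : (Fin n → α) → ℝ) (L : ℝ) (_ : 0 < L)
    (_ : ∀ f i a, |F (Function.update f i a) - F f| ≤ L) (c : ℝ),
    ∑ f, Real.exp (c * (F f - (∑ f, F f) / (Fintype.card α : ℝ) ^ n)) ≤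
      Real.exp (n * (c ^ 2 * L ^ 2 / 2)) * (Fintype.card α : ℝ) ^ n := by
  classical
  have hA : (0 : ℝ) < Fintype.card α := by exact_mod_cast Fintype.card_pos
  induction n with
  | zero =>
    intro F L hL hF c
    simp
  | succ n ih =>
    intro F L hL hF c
    set A : ℝ := (Fintype.card α : ℝ) with hAdef
    have hsum : ∀ G : (Fin (n + 1) → α) → ℝ, ∑ f, G f = ∑ a, ∑ g : Fin n → α, G (Fin.cons a g) := by
      intro G
      rw [← (Fin.consEquiv (fun _ : Fin (n + 1) => α)).sum_comp, Fintype.sum_prod_type]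
      rfl
    set m : ℝ := (∑ f, F f) / A ^ (n + 1) with hm
    set mm : α → ℝ := fun a => (∑ g : Fin n → α, F (Fin.cons a g)) / A ^ n with hmm
    have hmavg : ∑ a, mm a = A * m := by
      rw [hm, hsum F]
      simp only [hmm]
      rw [← Finset.sum_div]
      field_simp
      ring
    have hmdiff : ∀ a b, |mm a - mm b| ≤ L := by
      intro a b
      simp only [hmm]
      rw [← sub_div, ← Finset.sum_sub_distrib, abs_div, abs_of_pos (pow_pos hA n), div_le_iff₀ (pow_pos hA n)]
      calc |∑ g : Fin n → α, (F (Fin.cons a g) - F (Fin.cons b g))|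
          ≤ ∑ g : Fin n → α, |F (Fin.cons a g) - F (Fin.cons b g)| := Finset.abs_sum_le_sum_abs _ _
        _ ≤ ∑ _g : Fin n → α, L := by
            apply Finset.sum_le_sum
            intro g _
            have h := hF (Fin.cons b g) 0 a
            rwa [Fin.update_cons_zero] at h
        _ = L * A ^ n := by
            simp [hAdef, mul_comm]
    have hY : ∀ a, |mm a - m| ≤ L := by
      intro a
      have h1 : mm a - m = (∑ b, (mm a - mm b)) / A := by
        rw [Finset.sum_sub_distrib, hmavg]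
        simp only [Finset.sum_const, Finset.card_univ, nsmul_eq_mul, ← hAdef]
        field_simp
      rw [h1, abs_div, abs_of_pos hA, div_le_iff₀ hA]
      calc |∑ b, (mm a - mm b)| ≤ ∑ b, |mm a - mm b| := Finset.abs_sum_le_sum_abs _ _
        _ ≤ ∑ _b : α, L := Finset.sum_le_sum fun b _ => hmdiff a b
        _ = L * A := by simp [hAdef, mul_comm]
    have hY0 : ∑ a, (mm a - m) = 0 := by
      rw [Finset.sum_sub_distrib, hmavg]
      simp [hAdef]
    have hstep : ∀ a, ∑ g : Fin n → α, Real.exp (c * (F (Fin.cons a g) - m)) ≤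
        Real.exp (c * (mm a - m)) * (Real.exp (n * (c ^ 2 * L ^ 2 / 2)) * A ^ n) := by
      intro a
      have h := ih (fun g => F (Fin.cons a g)) L hL (by
        intro g i b
        have h := hF (Fin.cons a g) i.succ b
        rwa [← Fin.cons_update] at h) c
      have e : ∀ g : Fin n → α, Real.exp (c * (F (Fin.cons a g) - m)) =
          Real.exp (c * (mm a - m)) * Real.exp (c * (F (Fin.cons a g) - mm a)) := by
        intro g
        rw [← Real.exp_add]
        congr 1
        ring
      simp only [e]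
      rw [← Finset.mul_sum]
      exact mul_le_mul_of_nonneg_left h (Real.exp_pos _).le
    rw [hsum]
    calc ∑ a, ∑ g : Fin n → α, Real.exp (c * (F (Fin.cons a g) - m))
        ≤ ∑ a, Real.exp (c * (mm a - m)) * (Real.exp (n * (c ^ 2 * L ^ 2 / 2)) * A ^ n) :=
          Finset.sum_le_sum fun a _ => hstep a
      _ = (∑ a, Real.exp (c * (mm a - m))) * (Real.exp (n * (c ^ 2 * L ^ 2 / 2)) * A ^ n) := by
          rw [Finset.sum_mul]
      _ ≤ (Real.exp (c ^ 2 * L ^ 2 / 2) * A) * (Real.exp (n * (c ^ 2 * L ^ 2 / 2)) * A ^ n) :=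
          mul_le_mul_of_nonneg_right (h46_hoeffding _ c L hL hY hY0) (by positivity)
      _ = Real.exp (((n + 1 : ℕ) : ℝ) * (c ^ 2 * L ^ 2 / 2)) * A ^ (n + 1) := by
          push_cast
          rw [add_mul, one_mul, Real.exp_add, pow_succ]
          ring

open Classical in
theorem bdd_up {α : Type} [Fintype α] [Nonempty α] (n : ℕ) (F : (Fin n → α) → ℝ) (L : ℝ) (hL : 0 < L)
    (hF : ∀ f i a, |F (Function.update f i a) - F f| ≤ L) (s : ℝ) (hs : 0 < s) :
    ((univ.filter fun f => (∑ f, F f) / (Fintype.card α : ℝ) ^ n + s * n ≤ F f).card : ℝ) ≤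
      Real.exp (-(s ^ 2 / (2 * L ^ 2)) * n) * (Fintype.card α : ℝ) ^ n := by
  have hF' : ∀ f i a, |F (@Function.update (Fin n) (fun _ => α) (instDecidableEqFin n) f i a) - F f| ≤ L := by
    intro f i a
    have := hF f i a
    convert this using 4
  set m : ℝ := (∑ f, F f) / (Fintype.card α : ℝ) ^ n with hm
  set c : ℝ := s / L ^ 2 with hc
  have hcpos : 0 < c := by positivity
  have h := h46_mgf n F L hL hF' c
  rw [← hm] at h
  have h1 : ((univ.filter fun f => m + s * n ≤ F f).card : ℝ) * Real.exp (c * (s * n)) ≤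
      ∑ f, Real.exp (c * (F f - m)) := by
    calc ((univ.filter fun f => m + s * n ≤ F f).card : ℝ) * Real.exp (c * (s * n))
        = ∑ f ∈ univ.filter (fun f => m + s * n ≤ F f), Real.exp (c * (s * n)) := by
          rw [Finset.sum_const, nsmul_eq_mul]
      _ ≤ ∑ f ∈ univ.filter (fun f => m + s * n ≤ F f), Real.exp (c * (F f - m)) := by
          apply Finset.sum_le_sum
          intro f hf
          rw [Finset.mem_filter] at hf
          apply Real.exp_le_exp.2
          apply mul_le_mul_of_nonneg_left _ hcpos.le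
          linarith [hf.2]
      _ ≤ ∑ f, Real.exp (c * (F f - m)) :=
          Finset.sum_le_sum_of_subset_of_nonneg (Finset.filter_subset _ _) fun _ _ _ => (Real.exp_pos _).le
  have h2 := h1.trans h
  rw [← le_div_iff₀ (Real.exp_pos _)] at h2
  refine h2.trans (le_of_eq ?_)
  rw [mul_div_right_comm, ← Real.exp_sub]
  congr 2
  rw [hc]
  field_simp
  ring

open Classical in
theorem bdd_lo {α : Type} [Fintype α] [Nonempty α] (n : ℕ) (F : (Fin n → α) → ℝ) (L : ℝ) (hL : 0 < L)
    (hF : ∀ f i a, |F (Function.update f i a) - F f| ≤ L) (s : ℝ) (hs : 0 < s) :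
    ((univ.filter fun f => F f ≤ (∑ f, F f) / (Fintype.card α : ℝ) ^ n - s * n).card : ℝ) ≤
      Real.exp (-(s ^ 2 / (2 * L ^ 2)) * n) * (Fintype.card α : ℝ) ^ n := by
  have h := bdd_up n (fun f => - F f) L hL (by
    intro f i a
    have := hF f i a
    rw [abs_sub_comm] at this
    refine le_trans (le_of_eq ?_) this
    congr 1
    ring) s hs
  refine le_trans (le_of_eq ?_) h
  congr 2
  ext f
  simp only [Finset.mem_filter, Finset.mem_univ, true_and]
  rw [Finset.sum_neg_distrib, neg_div]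
  constructor <;> intro h <;> linarith

end Pool.Agent.UC
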