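import Mathlib

/-!
# Project UC: almost all labelled unicyclic graphs (definitions)

Every unicyclic graph `G` on `Fin n` comes from a function `f : Fin n → Fin n` (`G.Adj u v ↔ f u = v ∨ f v = u`), so events of
exponentially small probability for random functions are negligible for random unicyclic graphs.
-/

set_option autoImplicit false

namespace Pool.Agent.UC

open Finset

/-- preimages -/
def pre {n : ℕ} (f : Fin n → Fin n) (v : Fin n) : Finset (Fin n) := univ.filter fun x => f x = v

/-- star centres: exactly `D` preimages, none of which has a preimage -/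
def ST {n : ℕ} (D : ℕ) (f : Fin n → Fin n) : Finset (Fin n) :=
  univ.filter fun c => (pre f c).card = D ∧ ∀ x ∈ pre f c, pre f x = ∅

/-- sum of `in-degree + 1` over the vertices of in-degree at least `Λ` -/
def TL {n : ℕ} (Λ : ℕ) (f : Fin n → Fin n) : ℕ :=
  ∑ v ∈ univ.filter (fun v => Λ ≤ (pre f v).card), ((pre f v).card + 1)

open Classical in
/-- unicyclic graphs on `Fin n` -/
def Uni {n : ℕ} (G : SimpleGraph (Fin n)) : Prop := G.Connected ∧ G.edgeFinset.card = n

open Classical in
/-- `f` orients the edges of `G` -/
structure Ori {n : ℕ} (G : SimpleGraph (Fin n)) (f : Fin n → Fin n) : Prop where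
  adj : ∀ v, G.Adj v (f v)
  all : ∀ u v, G.Adj u v → f u = v ∨ f v = u
  deg : ∀ v, G.degree v = (pre f v).card + 1

end Pool.Agent.UC
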